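import Mathlib

/-!
# MP_e2a5d3_al, LIN : chains on families of finite sets

Chains are functions `Finset V → K`; `bd` is the simplicial boundary (signs from the linear order of
`V`), `ex x` the operator which adds the vertex `x`; `bd (ex x c) + ex x (bd c) = c`.
`Acyc C n`: every cycle of `C` supported on sets with `n` elements is a boundary in `C`
(reduced homology of `C` vanishes in dimension `n - 1`).
`Onto Z Y n`, `Inj Z Y n`: the map `H(Z) → H(Y)` in size `n` is onto, injective.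
-/

namespace Pool.Agent.LR

open Finset

section Basic

variable {V K : Type*} [LinearOrder V] [Fintype V] [CommRing K]

/-- the sign of `x` against `τ` -/
def sg (K : Type*) [CommRing K] (x : V) (τ : Finset V) : K := (-1) ^ (τ.filter (· < x)).card

theorem sg_mul_self (x : V) (τ : Finset V) : sg K x τ * sg K x τ = 1 := by
  unfold sg
  rw [← pow_add, ← two_mul, pow_mul]
  norm_num

theorem sg_insert {x y : V} {τ : Finset V} (hy : y ∉ τ) :
    sg K x (insert y τ) = (if y < x then -1 else 1) * sg K x τ := by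
  unfold sg
  rw [filter_insert]
  split_ifs with h
  · rw [card_insert_of_notMem (by simp [hy]), pow_succ]; ring
  · ring

/-- the boundary -/
def bd (c : Finset V → K) : Finset V → K := fun τ =>
  ∑ x ∈ univ.filter (· ∉ τ), sg K x τ * c (insert x τ)

/-- adding the vertex `x` -/
def ex (x : V) (c : Finset V → K) : Finset V → K := fun τ =>
  if x ∈ τ then sg K x (τ.erase x) * c (τ.erase x) else 0

theorem bd_add (c c' : Finset V → K) : bd (c + c') = bd c + bd c' := by
  funext τ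
  simp only [bd, Pi.add_apply, mul_add, sum_add_distrib]

theorem bd_neg (c : Finset V → K) : bd (-c) = -bd c := by
  funext τ
  simp only [bd, Pi.neg_apply, mul_neg, sum_neg_distrib]

theorem bd_sub (c c' : Finset V → K) : bd (c - c') = bd c - bd c' := by
  rw [sub_eq_add_neg, bd_add, bd_neg, sub_eq_add_neg]

theorem bd_zero : bd (0 : Finset V → K) = 0 := by
  funext τ
  simp [bd]

theorem bd_smul (k : K) (c : Finset V → K) : bd (k • c) = k • bd c := by
  funext τ
  simp only [bd, Pi.smul_apply, smul_eq_mul, mul_sum]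
  exact sum_congr rfl (fun _ _ => by ring)

theorem ex_add (x : V) (c c' : Finset V → K) : ex x (c + c') = ex x c + ex x c' := by
  funext τ
  simp only [ex, Pi.add_apply]
  split_ifs <;> ring

theorem ex_neg (x : V) (c : Finset V → K) : ex x (-c) = -ex x c := by
  funext τ
  simp only [ex, Pi.neg_apply]
  split_ifs <;> ring

theorem ex_sub (x : V) (c c' : Finset V → K) : ex x (c - c') = ex x c - ex x c' := by
  rw [sub_eq_add_neg, ex_add, ex_neg, sub_eq_add_neg]

theorem ex_zero (x : V) : ex x (0 : Finset V → K) = 0 := by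
  funext τ
  simp [ex]

/-- the homotopy formula -/
theorem bd_ex (x : V) (c : Finset V → K) : bd (ex x c) + ex x (bd c) = c := by
  funext τ
  simp only [Pi.add_apply, bd, ex]
  by_cases hx : x ∈ τ
  · rw [if_pos hx]
    have h0 : (univ.filter (· ∉ τ.erase x)) = insert x (univ.filter (· ∉ τ)) := by
      ext y
      simp only [mem_filter, mem_univ, true_and, mem_insert, mem_erase, not_and]
      by_cases hyx : y = x
      · simp [hyx]
      · simp [hyx]
    rw [h0, sum_insert (by simp [hx]), insert_erase hx, mul_add, ← mul_assoc, sg_mul_self,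
      one_mul, mul_sum, add_comm, add_assoc, ← sum_add_distrib]
    refine (add_eq_left).2 (sum_eq_zero (fun y hy => ?_))
    have hy' : y ∉ τ := by simpa using hy
    have hyx : y ≠ x := fun h => hy' (h ▸ hx)
    have h1 : (insert y τ).erase x = insert y (τ.erase x) := by
      rw [erase_insert_of_ne hyx]
    have h2 : y ∉ τ.erase x := fun h => hy' (mem_of_mem_erase h)
    rw [if_pos (mem_insert_of_mem hx), h1, sg_insert h2]
    have h3 : sg K y τ = (if x < y then -1 else 1) * sg K y (τ.erase x) := by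
      rw [← sg_insert (notMem_erase x τ), insert_erase hx]
    rw [h3]
    rcases lt_or_gt_of_ne hyx with h | h
    · rw [if_neg (not_lt.2 h.le), if_pos h]; ring
    · rw [if_pos h, if_neg (not_lt.2 h.le)]; ring
  · rw [if_neg hx, add_zero]
    rw [sum_eq_single_of_mem x (by simp [hx])]
    · rw [if_pos (mem_insert_self x τ), erase_insert hx, ← mul_assoc, sg_mul_self, one_mul]
    · intro y hy hyx
      rw [if_neg (by simp [hx, Ne.symm hyx]), mul_zero]

theorem bd_bd (c : Finset V → K) : bd (bd c) = 0 := by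
  funext τ
  simp only [bd, Pi.zero_apply]
  have h0 : ∀ y ∈ univ.filter (· ∉ τ), sg K y τ * ∑ x ∈ univ.filter (· ∉ insert y τ),
      sg K x (insert y τ) * c (insert x (insert y τ)) =
      ∑ x ∈ univ.filter (· ∉ insert y τ), sg K y τ * sg K x (insert y τ) *
        c (insert x (insert y τ)) := by
    intro y _
    rw [mul_sum]
    exact sum_congr rfl (fun _ _ => by ring)
  rw [sum_congr rfl h0, sum_sigma']
  refine sum_involution (fun p _ => ⟨p.2, p.1⟩) ?_ ?_ ?_ ?_
  · rintro ⟨y, x⟩ hp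
    simp only [mem_sigma, mem_filter, mem_univ, true_and, mem_insert, not_or] at hp
    obtain ⟨hy, hxy, hx⟩ := hp
    simp only
    rw [sg_insert hy, sg_insert hx, Finset.insert_comm y x τ]
    rcases lt_or_gt_of_ne hxy with h | h
    · rw [if_neg (not_lt.2 h.le), if_pos h]; ring
    · rw [if_pos h, if_neg (not_lt.2 h.le)]; ring
  · rintro ⟨y, x⟩ hp _
    simp only [mem_sigma, mem_filter, mem_univ, true_and, mem_insert, not_or] at hp
    intro h
    have := congrArg Sigma.fst h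
    exact hp.2.1 this
  · rintro ⟨y, x⟩ hp
    simp only [mem_sigma, mem_filter, mem_univ, true_and, mem_insert, not_or] at hp ⊢
    exact ⟨hp.2.2, fun h => hp.2.1 h.symm, hp.1⟩
  · rintro ⟨y, x⟩ _
    rfl

/-- `c` is supported on sets of `C` with `n` elements -/
def On (C : Set (Finset V)) (n : ℕ) (c : Finset V → K) : Prop :=
  ∀ τ, c τ ≠ 0 → τ ∈ C ∧ τ.card = n

theorem On.add {C : Set (Finset V)} {n : ℕ} {c c' : Finset V → K} (h : On C n c)
    (h' : On C n c') : On C n (c + c') := by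
  intro τ hτ
  by_cases h0 : c τ = 0
  · refine h' τ (fun h1 => hτ ?_)
    rw [Pi.add_apply, h0, h1, add_zero]
  · exact h τ h0

theorem On.neg {C : Set (Finset V)} {n : ℕ} {c : Finset V → K} (h : On C n c) :
    On C n (-c) := fun τ hτ => h τ (fun h1 => hτ (by rw [Pi.neg_apply, h1, neg_zero]))

theorem On.sub {C : Set (Finset V)} {n : ℕ} {c c' : Finset V → K} (h : On C n c)
    (h' : On C n c') : On C n (c - c') := by
  rw [sub_eq_add_neg]
  exact h.add h'.neg

theorem On.smul {C : Set (Finset V)} {n : ℕ} {c : Finset V → K} (h : On C n c) (k : K) :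
    On C n (k • c) := fun τ hτ => h τ (fun h1 => hτ (by rw [Pi.smul_apply, h1, smul_zero]))

theorem on_zero (C : Set (Finset V)) (n : ℕ) : On C n (0 : Finset V → K) :=
  fun τ hτ => absurd rfl hτ

theorem On.mono {C C' : Set (Finset V)} {n : ℕ} {c : Finset V → K} (h : On C n c)
    (hC : C ⊆ C') : On C' n c := fun τ hτ => ⟨hC (h τ hτ).1, (h τ hτ).2⟩

/-- `C` is closed under subsets -/
def Down (C : Set (Finset V)) : Prop := ∀ F ∈ C, ∀ F', F' ⊆ F → F' ∈ C

theorem On.bd {C : Set (Finset V)} (hC : Down C) {n : ℕ} {c : Finset V → K}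
    (h : On C (n + 1) c) : On C n (bd c) := by
  intro τ hτ
  obtain ⟨x, hx, hx2⟩ := exists_ne_zero_of_sum_ne_zero hτ
  have hx' : x ∉ τ := by simpa using hx
  have h1 := h (insert x τ) (fun h0 => hx2 (by rw [h0, mul_zero]))
  rw [card_insert_of_notMem hx'] at h1
  exact ⟨hC _ h1.1 _ (subset_insert x τ), by omega⟩

/-- all cycles of size `n` in `C` are boundaries in `C` -/
def Acyc (K : Type*) [CommRing K] (C : Set (Finset V)) (n : ℕ) : Prop :=
  ∀ c : Finset V → K, On C n c → bd c = 0 → ∃ w, On C (n + 1) w ∧ bd w = c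

/-- `H(Z) → H(Y)` is onto in size `n` -/
def Onto (K : Type*) [CommRing K] (Z Y : Set (Finset V)) (n : ℕ) : Prop :=
  ∀ z : Finset V → K, On Y n z → bd z = 0 →
    ∃ z' w, On Z n z' ∧ bd z' = 0 ∧ On Y (n + 1) w ∧ z = z' + bd w

/-- `H(Z) → H(Y)` is injective in size `n` -/
def Inj (K : Type*) [CommRing K] (Z Y : Set (Finset V)) (n : ℕ) : Prop :=
  ∀ z w : Finset V → K, On Z n z → bd z = 0 → On Y (n + 1) w → bd w = z →
    ∃ w', On Z (n + 1) w' ∧ bd w' = z

theorem Onto.refl (Z : Set (Finset V)) (n : ℕ) : Onto K Z Z n :=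
  fun z hz h0 => ⟨z, 0, hz, h0, on_zero _ _, by rw [bd_zero, add_zero]⟩

theorem Inj.refl (Z : Set (Finset V)) (n : ℕ) : Inj K Z Z n :=
  fun _ w _ _ hw e => ⟨w, hw, e⟩

theorem Onto.trans {Z Y X : Set (Finset V)} {n : ℕ} (hYX : Y ⊆ X) (h1 : Onto K Z Y n)
    (h2 : Onto K Y X n) : Onto K Z X n := by
  intro z hz h0
  obtain ⟨z', w, a1, a2, a3, a4⟩ := h2 z hz h0
  obtain ⟨z'', w', b1, b2, b3, b4⟩ := h1 z' a1 a2
  refine ⟨z'', w' + w, b1, b2, (b3.mono hYX).add a3, ?_⟩
  rw [a4, b4, bd_add, add_assoc]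

theorem Onto.of_trans {Z Y X : Set (Finset V)} {n : ℕ} (hZY : Z ⊆ Y) (h : Onto K Z X n) :
    Onto K Y X n := by
  intro z hz h0
  obtain ⟨z', w, a1, a2, a3, a4⟩ := h z hz h0
  exact ⟨z', w, a1.mono hZY, a2, a3, a4⟩

theorem Inj.trans {Z Y X : Set (Finset V)} {n : ℕ} (hZY : Z ⊆ Y) (h1 : Inj K Z Y n)
    (h2 : Inj K Y X n) : Inj K Z X n := by
  intro z w hz h0 hw e
  obtain ⟨w', a1, a2⟩ := h2 z w (hz.mono hZY) h0 hw e
  exact h1 z w' hz h0 a1 a2

theorem Inj.of_onto {Z Y X : Set (Finset V)} {n : ℕ} (hZY : Z ⊆ Y) (hYX : Y ⊆ X)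
    (h1 : Onto K Z Y n) (h2 : Inj K Z X n) : Inj K Y X n := by
  intro z w hz h0 hw e
  obtain ⟨z', u, a1, a2, a3, a4⟩ := h1 z hz h0
  obtain ⟨w', b1, b2⟩ := h2 z' (w - u) a1 a2 (hw.sub (a3.mono hYX)) (by
    rw [bd_sub, e, a4]; abel)
  exact ⟨w' + u, (b1.mono hZY).add a3, by rw [bd_add, b2, a4]⟩

theorem Inj.of_trans {Z Y X : Set (Finset V)} {n : ℕ} (hYX : Y ⊆ X) (h : Inj K Z X n) :
    Inj K Z Y n := fun z w hz h0 hw e => h z w hz h0 (hw.mono hYX) e

theorem Acyc.of_onto {Z Y : Set (Finset V)} {n : ℕ} (hZY : Z ⊆ Y) (h1 : Acyc K Z n)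
    (h2 : Onto K Z Y n) : Acyc K Y n := by
  intro z hz h0
  obtain ⟨z', w, a1, a2, a3, a4⟩ := h2 z hz h0
  obtain ⟨w', b1, b2⟩ := h1 z' a1 a2
  exact ⟨w' + w, (b1.mono hZY).add a3, by rw [bd_add, b2, a4]⟩

theorem Acyc.of_inj {Z Y : Set (Finset V)} {n : ℕ} (hZY : Z ⊆ Y) (h1 : Acyc K Y n)
    (h2 : Inj K Z Y n) : Acyc K Z n := by
  intro z hz h0
  obtain ⟨w, a1, a2⟩ := h1 z (hz.mono hZY) h0
  exact h2 z w hz h0 a1 a2

theorem Acyc.onto {Z Y : Set (Finset V)} {n : ℕ} (h : Acyc K Y n) : Onto K Z Y n := by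
  intro z hz h0
  obtain ⟨w, a1, a2⟩ := h z hz h0
  exact ⟨0, w, on_zero _ _, bd_zero, a1, by rw [a2, zero_add]⟩

theorem Acyc.inj {Z Y : Set (Finset V)} {n : ℕ} (h : Acyc K Z n) : Inj K Z Y n :=
  fun z _ hz h0 _ _ => h z hz h0

/-! ### the vertex `x` -/

/-- the part of `c` on the sets without `x` -/
def p0 (x : V) (c : Finset V → K) : Finset V → K := fun τ => if x ∈ τ then 0 else c τ

/-- the link part of `c` -/
def p1 (x : V) (c : Finset V → K) : Finset V → K := fun τ =>
  if x ∈ τ then 0 else sg K x τ * c (insert x τ)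

theorem decomp (x : V) (c : Finset V → K) : c = p0 x c + ex x (p1 x c) := by
  funext τ
  simp only [Pi.add_apply, p0, p1, ex]
  by_cases hx : x ∈ τ
  · rw [if_pos hx, if_pos hx, if_neg (notMem_erase x τ), insert_erase hx, ← mul_assoc,
      sg_mul_self, one_mul, zero_add]
  · rw [if_neg hx, if_neg hx, add_zero]

/-- `c` vanishes on the sets containing `x` -/
def Free (x : V) (c : Finset V → K) : Prop := ∀ τ, x ∈ τ → c τ = 0

theorem free_p0 (x : V) (c : Finset V → K) : Free x (p0 x c) := fun _ h => if_pos h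

theorem free_p1 (x : V) (c : Finset V → K) : Free x (p1 x c) := fun _ h => if_pos h

theorem Free.bd {x : V} {c : Finset V → K} (h : Free x c) : Free x (bd c) := by
  intro τ hτ
  refine sum_eq_zero (fun y _ => ?_)
  rw [h _ (mem_insert_of_mem hτ), mul_zero]

theorem Free.add {x : V} {c c' : Finset V → K} (h : Free x c) (h' : Free x c') :
    Free x (c + c') := fun τ hτ => by rw [Pi.add_apply, h τ hτ, h' τ hτ, add_zero]

theorem Free.neg {x : V} {c : Finset V → K} (h : Free x c) : Free x (-c) :=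
  fun τ hτ => by rw [Pi.neg_apply, h τ hτ, neg_zero]

theorem Free.sub {x : V} {c c' : Finset V → K} (h : Free x c) (h' : Free x c') :
    Free x (c - c') := fun τ hτ => by rw [Pi.sub_apply, h τ hτ, h' τ hτ, sub_zero]

theorem free_unique {x : V} {f g : Finset V → K} (hf : Free x f) (hg : Free x g)
    (h : f + ex x g = 0) : f = 0 ∧ g = 0 := by
  constructor
  · funext τ
    by_cases hx : x ∈ τ
    · exact hf τ hx
    · have := congrFun h τ
      rw [Pi.add_apply, ex, if_neg hx, add_zero] at this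
      exact this
  · funext τ
    by_cases hx : x ∈ τ
    · exact hg τ hx
    · have := congrFun h (insert x τ)
      rw [Pi.add_apply, ex, if_pos (mem_insert_self x τ), hf _ (mem_insert_self x τ), zero_add,
        erase_insert hx] at this
      have h2 := congrArg (fun t => sg K x τ * t) this
      simp only [Pi.zero_apply, mul_zero, ← mul_assoc, sg_mul_self, one_mul] at h2
      exact h2

theorem On.free {x : V} {Y : Set (Finset V)} (hY : ∀ F ∈ Y, x ∉ F) {n : ℕ}
    {c : Finset V → K} (h : On Y n c) : Free x c := by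
  intro τ hτ
  by_contra h0
  exact hY τ (h τ h0).1 hτ

/-- `Y` with the cone over `Z` with apex `x` -/
def cone (x : V) (Y Z : Set (Finset V)) : Set (Finset V) :=
  {F | (x ∉ F ∧ F ∈ Y) ∨ (x ∈ F ∧ F.erase x ∈ Z)}

theorem On.ex {x : V} {Y Z : Set (Finset V)} {n : ℕ} {c : Finset V → K}
    (hZ : ∀ F ∈ Z, x ∉ F) (h : On Z n c) : On (cone x Y Z) (n + 1) (ex x c) := by
  intro τ hτ
  by_cases hx : x ∈ τ
  · rw [LR.ex, if_pos hx] at hτ
    have h1 := h (τ.erase x) (fun h0 => hτ (by rw [h0, mul_zero]))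
    refine ⟨Or.inr ⟨hx, h1.1⟩, ?_⟩
    rw [← card_erase_add_one hx, h1.2]
  · rw [LR.ex, if_neg hx] at hτ
    exact absurd rfl hτ

theorem On.cone0 {x : V} {Y Z : Set (Finset V)} {n : ℕ} {c : Finset V → K}
    (hY : ∀ F ∈ Y, x ∉ F) (h : On Y n c) : On (cone x Y Z) n c :=
  fun τ hτ => ⟨Or.inl ⟨hY τ (h τ hτ).1, (h τ hτ).1⟩, (h τ hτ).2⟩

theorem on_p0 {x : V} {Y Z : Set (Finset V)} {n : ℕ} {c : Finset V → K}
    (h : On (cone x Y Z) n c) : On Y n (p0 x c) := by
  intro τ hτ
  rw [p0] at hτ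
  by_cases hx : x ∈ τ
  · rw [if_pos hx] at hτ; exact absurd rfl hτ
  · rw [if_neg hx] at hτ
    obtain ⟨h1, h2⟩ := h τ hτ
    rcases h1 with h1 | h1
    · exact ⟨h1.2, h2⟩
    · exact absurd h1.1 hx

theorem on_p1 {x : V} {Y Z : Set (Finset V)} {n : ℕ} {c : Finset V → K}
    (h : On (cone x Y Z) (n + 1) c) : On Z n (p1 x c) := by
  intro τ hτ
  rw [p1] at hτ
  by_cases hx : x ∈ τ
  · rw [if_pos hx] at hτ; exact absurd rfl hτ
  · rw [if_neg hx] at hτ
    obtain ⟨h1, h2⟩ := h (insert x τ) (fun h0 => hτ (by rw [h0, mul_zero]))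
    rw [card_insert_of_notMem hx] at h2
    rcases h1 with h1 | h1
    · exact absurd (mem_insert_self x τ) h1.1
    · rw [erase_insert hx] at h1
      exact ⟨h1.2, by omega⟩

theorem bd_pair {x : V} (f g : Finset V → K) :
    bd (f + ex x g) = (bd f + g) + ex x (-(bd g)) := by
  rw [bd_add, ex_neg]
  have := bd_ex x g
  rw [add_assoc, ← sub_eq_add_neg, ← sub_eq_iff_eq_add'.2 this.symm]
  abel

/-- **The cone lemma**, first half. -/
theorem acyc_cone {x : V} {Y Z : Set (Finset V)} (hY : ∀ F ∈ Y, x ∉ F) (hZY : Z ⊆ Y) {n : ℕ}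
    (h1 : Onto K Z Y n) (h2 : ∀ m, n = m + 1 → Inj K Z Y m) : Acyc K (cone x Y Z) n := by
  have hZ : ∀ F ∈ Z, x ∉ F := fun F hF => hY F (hZY hF)
  -- reduction to cycles of `Y`
  have key : ∀ z : Finset V → K, On Y n z → bd z = 0 →
      ∃ w, On (cone x Y Z) (n + 1) w ∧ bd w = z := by
    intro z hz h0
    obtain ⟨z', w, a1, a2, a3, a4⟩ := h1 z hz h0
    refine ⟨ex x z' + w, (a1.ex hZ).add (a3.cone0 hY), ?_⟩
    have := bd_ex x z'
    rw [a2, ex_zero, add_zero] at this
    rw [bd_add, this, a4]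
  intro z hz h0
  cases n with
  | zero =>
      refine key z (fun τ hτ => ?_) h0
      obtain ⟨b1, b2⟩ := hz τ hτ
      have : τ = ∅ := card_eq_zero.1 b2
      subst this
      rcases b1 with b1 | b1
      · exact ⟨b1.2, b2⟩
      · exact absurd b1.1 (notMem_empty x)
  | succ m =>
      have hd := decomp x z
      have hz0 := on_p0 hz
      have hz1 := on_p1 hz
      rw [hd, bd_pair] at h0
      obtain ⟨h3, h4⟩ := free_unique ((free_p0 x z).bd.add (free_p1 x z)) ((free_p1 x z).bd.neg) h0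
      have h4' : bd (p1 x z) = 0 := neg_eq_zero.1 h4
      have h3' : bd (-(p0 x z)) = p1 x z := by
        rw [bd_neg]
        exact neg_eq_of_add_eq_zero_right h3
      obtain ⟨w1, c1, c2⟩ := h2 m rfl (p1 x z) (-(p0 x z)) hz1 h4' hz0.neg h3'
      obtain ⟨w, d1, d2⟩ := key (p0 x z + w1) (hz0.add (c1.mono hZY)) (by
        rw [bd_add, c2]; exact h3)
      refine ⟨w - ex x w1, d1.sub (c1.ex hZ), ?_⟩
      have h5 := bd_ex x w1
      rw [bd_sub, d2]
      have h6 : bd (ex x w1) = w1 - ex x (bd w1) := eq_sub_of_add_eq h5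
      rw [h6, c2]
      conv_rhs => rw [hd]
      abel

/-- **The cone lemma**, second half. -/
theorem onto_of_cone {x : V} {Y Z : Set (Finset V)} (hY : ∀ F ∈ Y, x ∉ F) {n : ℕ}
    (h : Acyc K (cone x Y Z) n) : Onto K Z Y n := by
  intro z hz h0
  obtain ⟨w, a1, a2⟩ := h z (hz.cone0 hY) h0
  have hd := decomp x w
  have hw0 := on_p0 a1
  have hw1 := on_p1 a1
  rw [hd, bd_pair] at a2
  have h1 : (bd (p0 x w) + p1 x w - z) + ex x (-(bd (p1 x w))) = 0 := by
    rw [← a2]; abel
  obtain ⟨h3, h4⟩ := free_unique (((free_p0 x w).bd.add (free_p1 x w)).sub (hz.free hY))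
    ((free_p1 x w).bd.neg) h1
  exact ⟨p1 x w, p0 x w, hw1, neg_eq_zero.1 h4, hw0, by rw [← sub_eq_zero.1 h3]; abel⟩

theorem inj_of_cone {x : V} {Y Z : Set (Finset V)} (hY : ∀ F ∈ Y, x ∉ F) (hZY : Z ⊆ Y) {n : ℕ}
    (h : Acyc K (cone x Y Z) (n + 1)) : Inj K Z Y n := by
  have hZ : ∀ F ∈ Z, x ∉ F := fun F hF => hY F (hZY hF)
  intro z w hz h0 hw e
  have h1 := bd_ex x z
  rw [h0, ex_zero, add_zero] at h1
  obtain ⟨u, a1, a2⟩ := h (w - ex x z) ((hw.cone0 hY).sub (hz.ex hZ)) (by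
    rw [bd_sub, e, h1, sub_self])
  have hd := decomp x u
  have hu1 := on_p1 a1
  rw [hd, bd_pair] at a2
  have h2 : (bd (p0 x u) + p1 x u - w) + ex x (z - bd (p1 x u)) = 0 := by
    have h3 : ex x (z - bd (p1 x u)) = ex x z + ex x (-(bd (p1 x u))) := by
      rw [← ex_add]; congr 1; abel
    rw [h3]
    have h4 : (bd (p0 x u) + p1 x u) + ex x (-(bd (p1 x u))) - (w - ex x z) = 0 :=
      sub_eq_zero.2 a2
    rw [← h4]; abel
  obtain ⟨_, h5⟩ := free_unique (((free_p0 x u).bd.add (free_p1 x u)).sub (hw.free hY))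
    ((hz.free hZ).sub (free_p1 x u).bd) h2
  exact ⟨p1 x u, hu1, (sub_eq_zero.1 h5).symm⟩

end Basic

end Pool.Agent.LR
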